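import Pool.Agent.H905Z.Quad
import Pool.Agent.H905Z.Fold

set_option autoImplicit false

namespace Pool.Agent.Results.MP_10145b_nt.ABothWeights

/-- `D(a, h, w) = +∞`: the weighted correlation sums are unbounded over `d, n ≥ 1`. -/
def InfiniteDisc {ℓ : ℕ} (a : Fin ℓ → ℕ → ℂ) (h : Fin ℓ → ℕ) (w : ℕ → ℂ) : Prop :=
  ∀ C : ℝ, ∃ d n : ℕ, 1 ≤ d ∧ 1 ≤ n ∧
    C < ‖∑ k ∈ Finset.Icc 1 n, w k * ∏ j, a j (d * (k + h j))‖

/-- The assertion of the problem for the weight `w`. -/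
def HoldsFor (w : ℕ → ℂ) : Prop :=
  ∀ ℓ : ℕ, 1 ≤ ℓ → ∀ a : Fin ℓ → ℕ → ℂ, (∀ j n, 1 ≤ n → ‖a j n‖ = 1) →
    ∀ h : Fin ℓ → ℕ, (∀ j, 1 ≤ h j) → InfiniteDisc a h w

/-- The assertion fails for the constant weight, already for two terms with shifts `1, 2` and one
completely multiplicative `±1` valued function, and it holds for every quadratic phase weight with
irrational coefficient. -/
theorem result :
    (¬ HoldsFor (fun _ => 1) ∧
      ∃ f : ℕ → ℂ, (∀ n, 1 ≤ n → f n = 1 ∨ f n = -1) ∧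
        (∀ m n, 1 ≤ m → 1 ≤ n → f (m * n) = f m * f n) ∧
        ¬ InfiniteDisc ![f, f] ![1, 2] (fun _ => 1)) ∧
    ∀ α : ℝ, Irrational α → HoldsFor (fun k =>
      Complex.exp (2 * Real.pi * Complex.I * (((k : ℝ) ^ 2 * α : ℝ) : ℂ))) := by
  have key : ¬ InfiniteDisc ![fun n => (Pool.Agent.H905Z.Fold.pf n : ℂ),
      fun n => (Pool.Agent.H905Z.Fold.pf n : ℂ)] ![1, 2] (fun _ => 1) := by
    intro h
    obtain ⟨d, n, hd, _, h2⟩ := h 2
    have := Pool.Agent.H905Z.Fold.main12 d n hd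
    simp only [Fin.prod_univ_two, one_mul, Matrix.cons_val_zero, Matrix.cons_val_one] at h2
    linarith
  refine ⟨⟨fun h => key (h 2 (by norm_num) _ ?_ _ ?_),
    fun n => (Pool.Agent.H905Z.Fold.pf n : ℂ), ?_, ?_, key⟩, ?_⟩
  · intro j n hn
    fin_cases j <;> simpa using Pool.Agent.H905Z.Fold.norm_pf n hn
  · intro j
    fin_cases j <;> simp
  · intro n hn
    rcases Pool.Agent.H905Z.Fold.pf_cases n (by omega) with h | h <;> simp [h]
  · intro m n _ _
    simp [Pool.Agent.H905Z.Fold.pf_mul]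
  · intro α hα ℓ _ a ha h _ C
    exact Pool.Agent.H905Z.Quad.main hα ℓ a ha h C

end Pool.Agent.Results.MP_10145b_nt.ABothWeights
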